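import Pool.Agent.Helper69.QG.St3

/-!
Project QD, part C, module PRM: a labelled coset action.
-/

set_option autoImplicit false

namespace Pool.Agent.Helper8.QG

open Pool.Agent.Helper69.QG

section

variable {G : Type} [Group G] (a1 b1 a2 b2 : G)

private theorem n1 : (-1 : Fin 4) = 3 := by decide

private theorem stn_stn (s : Fin 4) (t : Ste) : stn s (stn s t) = t := by
  obtain ⟨i, α, β⟩ := t
  fin_cases s <;> fin_cases i <;> cases α <;> cases β <;> rfl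

private theorem stc_stc (s : Fin 4) (t : Ste) :
    stc a1 b1 a2 b2 s t * stc a1 b1 a2 b2 s (stn s t) = 1 := by
  obtain ⟨i, α, β⟩ := t
  fin_cases s <;> fin_cases i <;> cases α <;> cases β <;> simp [stc, stn, yl, n1]

/-- the permutations -/
private def sg (s : Fin 4) : Equiv.Perm (G × Ste) where
  toFun p := (p.1 * stc a1 b1 a2 b2 s p.2, stn s p.2)
  invFun p := (p.1 * stc a1 b1 a2 b2 s p.2, stn s p.2)
  left_inv p := by
    obtain ⟨x, t⟩ := p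
    simp only [mul_assoc, stc_stc, stn_stn, mul_one]
  right_inv p := by
    obtain ⟨x, t⟩ := p
    simp only [mul_assoc, stc_stc, stn_stn, mul_one]

private theorem sg_apply (s : Fin 4) (x : G) (t : Ste) :
    sg a1 b1 a2 b2 s (x, t) = (x * stc a1 b1 a2 b2 s t, stn s t) := rfl

private theorem sg_sg (s : Fin 4) : sg a1 b1 a2 b2 s * sg a1 b1 a2 b2 s = 1 := by
  ext1 p
  obtain ⟨x, t⟩ := p
  rw [Equiv.Perm.mul_apply, sg_apply, sg_apply, mul_assoc, stc_stc, stn_stn, mul_one]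
  rfl

private theorem sg_two {s u : Fin 4} (h : (s = 0 ∧ u = 2) ∨ (s = 0 ∧ u = 3) ∨ (s = 1 ∧ u = 2)) :
    (sg a1 b1 a2 b2 s * sg a1 b1 a2 b2 u) ^ 2 = 1 := by
  ext1 p
  obtain ⟨x, i, α, β⟩ := p
  simp only [pow_two, Equiv.Perm.mul_apply, Equiv.Perm.one_apply, sg_apply]
  rcases h with ⟨rfl, rfl⟩ | ⟨rfl, rfl⟩ | ⟨rfl, rfl⟩ <;>
    fin_cases i <;> cases α <;> cases β <;> simp [stc, stn, yl, n1, mul_assoc]

private theorem cj (u r : G) (h : r = 1) : u * r * u⁻¹ = 1 := by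
  rw [h, mul_one, mul_inv_cancel]

private theorem sg_four (hR : a1 * b1 * a1⁻¹ * b1⁻¹ * (a2 * b2 * a2⁻¹ * b2⁻¹) = 1) :
    (sg a1 b1 a2 b2 1 * sg a1 b1 a2 b2 3) ^ 4 = 1 := by
  have hR' : (a1 * b1 * a1⁻¹ * b1⁻¹ * (a2 * b2 * a2⁻¹ * b2⁻¹))⁻¹ = 1 := by rw [hR, inv_one]
  have r1 : a2⁻¹ * (b2⁻¹ * (a1 * (b1 * (a1⁻¹ * (b1⁻¹ * (a2 * b2)))))) = 1 := by
    simpa [mul_assoc] using cj (a2⁻¹ * b2⁻¹) _ hR
  have r2 : b2 * (a2⁻¹ * (b2⁻¹ * (a1 * (b1 * (a1⁻¹ * (b1⁻¹ * a2)))))) = 1 := by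
    simpa [mul_assoc] using cj (b2 * a2⁻¹ * b2⁻¹) _ hR
  have r3 : b2 * (a2 * (b2⁻¹ * (a2⁻¹ * (b1 * (a1 * (b1⁻¹ * a1⁻¹)))))) = 1 := by
    simpa [mul_assoc] using hR'
  have r4 : b2⁻¹ * (a2⁻¹ * (b1 * (a1 * (b1⁻¹ * (a1⁻¹ * (b2 * a2)))))) = 1 := by
    simpa [mul_assoc] using cj (b2 * a2)⁻¹ _ hR'
  have r5 : b1 * (a1⁻¹ * (b1⁻¹ * (a2 * (b2 * (a2⁻¹ * (b2⁻¹ * a1)))))) = 1 := by
    simpa [mul_assoc] using cj a1⁻¹ _ hR
  have r6 : a1 * (b1 * (a1⁻¹ * (b1⁻¹ * (a2 * (b2 * (a2⁻¹ * b2⁻¹)))))) = 1 := by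
    simpa [mul_assoc] using hR
  have r7 : a1 * (b1⁻¹ * (a1⁻¹ * (b2 * (a2 * (b2⁻¹ * (a2⁻¹ * b1)))))) = 1 := by
    simpa [mul_assoc] using cj (a1 * b1⁻¹ * a1⁻¹) _ hR'
  have r8 : a1⁻¹ * (b2 * (a2 * (b2⁻¹ * (a2⁻¹ * (b1 * (a1 * b1⁻¹)))))) = 1 := by
    simpa [mul_assoc] using cj a1⁻¹ _ hR'
  ext1 p
  obtain ⟨x, i, α, β⟩ := p
  simp only [pow_succ, pow_zero, one_mul, Equiv.Perm.mul_apply, Equiv.Perm.one_apply, sg_apply]
  fin_cases i <;> cases α <;> cases β <;> simp [stc, stn, yl, n1, mul_assoc] <;>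
    first
      | exact r1
      | exact r2
      | exact r3
      | exact r4
      | exact r5
      | exact r6
      | exact r7
      | exact r8

private theorem sg_lift (hR : a1 * b1 * a1⁻¹ * b1⁻¹ * (a2 * b2 * a2⁻¹ * b2⁻¹) = 1) :
    cm.IsLiftable (sg a1 b1 a2 b2) := by
  have inv : ∀ s, (sg a1 b1 a2 b2 s)⁻¹ = sg a1 b1 a2 b2 s := fun s =>
    inv_eq_of_mul_eq_one_right (sg_sg a1 b1 a2 b2 s)
  have swap : ∀ (s u : Fin 4) (n : ℕ), (sg a1 b1 a2 b2 s * sg a1 b1 a2 b2 u) ^ n = 1 →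
      (sg a1 b1 a2 b2 u * sg a1 b1 a2 b2 s) ^ n = 1 := by
    intro s u n h
    have h2 : sg a1 b1 a2 b2 u * sg a1 b1 a2 b2 s =
        (sg a1 b1 a2 b2 s * sg a1 b1 a2 b2 u)⁻¹ := by
      rw [mul_inv_rev, inv, inv]
    rw [h2, inv_pow, h, inv_one]
  have self : ∀ s, (sg a1 b1 a2 b2 s * sg a1 b1 a2 b2 s) ^ 1 = 1 := fun s => by
    rw [sg_sg, one_pow]
  have h02 := sg_two a1 b1 a2 b2 (s := 0) (u := 2) (by simp)
  have h03 := sg_two a1 b1 a2 b2 (s := 0) (u := 3) (by simp)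
  have h12 := sg_two a1 b1 a2 b2 (s := 1) (u := 2) (by simp)
  have h13 := sg_four a1 b1 a2 b2 hR
  intro s u
  fin_cases s <;> fin_cases u
  · exact self 0
  · exact pow_zero _
  · exact h02
  · exact h03
  · exact pow_zero _
  · exact self 1
  · exact h12
  · exact h13
  · exact swap 0 2 2 h02
  · exact swap 1 2 2 h12
  · exact self 2
  · exact pow_zero _
  · exact swap 0 3 2 h03
  · exact swap 1 3 4 h13
  · exact pow_zero _
  · exact self 3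

end

theorem cPRM : St_PRM := by
  intro G _ a1 b1 a2 b2 hR
  obtain ⟨ρ, hρ⟩ : ∃ ρ : W →* Equiv.Perm (G × Ste), ∀ s, ρ (gen s) = sg a1 b1 a2 b2 s :=
    ⟨cs.lift ⟨sg a1 b1 a2 b2, sg_lift a1 b1 a2 b2 hR⟩, fun s => cs.lift_apply_simple _ s⟩
  have inv : ∀ s, (sg a1 b1 a2 b2 s)⁻¹ = sg a1 b1 a2 b2 s := fun s =>
    inv_eq_of_mul_eq_one_right (sg_sg a1 b1 a2 b2 s)
  have hA : ∀ (x : G) (i : Fin 4), ρ wA (x, (i, false, false)) =
      (x * (if i = 0 then (b1⁻¹ * a2)⁻¹ else 1), (i - 1, false, false)) := by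
    intro x i
    unfold wA
    rw [map_mul, hρ, hρ, Equiv.Perm.mul_apply, sg_apply, sg_apply]
    simp [stc, stn]
  have hAi : ∀ (x : G) (i : Fin 4), (ρ wA)⁻¹ (x, (i, false, false)) =
      (x * (if i = 3 then b1⁻¹ * a2 else 1), (i + 1, false, false)) := by
    intro x i
    unfold wA
    rw [map_mul, hρ, hρ, mul_inv_rev, inv, inv, Equiv.Perm.mul_apply, sg_apply, sg_apply]
    simp [stc, stn]
  have hB : ∀ (x : G) (i : Fin 4), ρ wB (x, (i, false, false)) =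
      (x * (yl a1 b1 a2 b2 (![1, 0, 3, 2] i))⁻¹, (![1, 0, 3, 2] i, false, false)) := by
    intro x i
    unfold wB
    rw [map_mul, hρ, hρ, Equiv.Perm.mul_apply, sg_apply, sg_apply]
    simp [stc, stn]
  have hBi : ∀ (x : G) (i : Fin 4), (ρ wB)⁻¹ (x, (i, false, false)) =
      (x * yl a1 b1 a2 b2 i, (![1, 0, 3, 2] i, false, false)) := by
    intro x i
    unfold wB
    rw [map_mul, hρ, hρ, mul_inv_rev, inv, inv, Equiv.Perm.mul_apply, sg_apply, sg_apply]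
    simp [stc, stn]
  have e1 : ∀ A B : W, (wa1 A B)⁻¹ = A * (A * (A * (B⁻¹ * (A⁻¹ * A⁻¹)))) := by
    intro A B
    unfold wa1
    simp only [pow_succ, pow_zero, one_mul, mul_inv_rev, inv_inv, mul_assoc]
  have e2 : ∀ A B : W, (wb1 A B)⁻¹ = A * (A * (A * (A * (B⁻¹ * (A⁻¹ * (B * A⁻¹)))))) := by
    intro A B
    unfold wb1
    simp only [pow_succ, pow_zero, one_mul, mul_inv_rev, inv_inv, mul_assoc]
  have e3 : ∀ A B : W, (wa2 A B)⁻¹ = B⁻¹ * (A⁻¹ * (B * A⁻¹)) := by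
    intro A B
    unfold wa2
    simp only [pow_succ, pow_zero, one_mul, mul_inv_rev, inv_inv, mul_assoc]
  have e4 : ∀ A B : W, (wb2 A B)⁻¹ = A * B⁻¹ := by
    intro A B
    unfold wb2
    simp only [pow_succ, pow_zero, one_mul, mul_inv_rev, inv_inv, mul_assoc]
  refine ⟨ρ, fun s x t => by rw [hρ, sg_apply], ?_, ?_, ?_, ?_⟩
  · intro x
    rw [e1]
    simp only [map_mul, map_inv, Equiv.Perm.mul_apply, ste0, hA, hAi, hB, hBi]
    simp [yl, n1, mul_assoc]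
  · intro x
    rw [e2]
    simp only [map_mul, map_inv, Equiv.Perm.mul_apply, ste0, hA, hAi, hB, hBi]
    simp [yl, n1, mul_assoc]
  · intro x
    rw [e3]
    simp only [map_mul, map_inv, Equiv.Perm.mul_apply, ste0, hA, hAi, hB, hBi]
    simp [yl, n1, mul_assoc]
  · intro x
    rw [e4]
    simp only [map_mul, map_inv, Equiv.Perm.mul_apply, ste0, hA, hAi, hB, hBi]
    simp [yl, n1, mul_assoc]

end Pool.Agent.Helper8.QG
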